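import Pool.Agent.H247.VE.Stm
import Pool.Agent.H122.SD.FC

/-!
# Finitely many chain classes in `K`, open in `K` (helper130 for helper247, adapted from helper122)
-/

set_option autoImplicit false

open Filter Set Metric

universe u

namespace Pool.Agent.H130.VE

open Pool.Agent.H247.SD Pool.Agent.H247.VE
open Pool.Agent.R774.OS (CR Ch mem_CR Ch.of)
open Pool.Agent.Q182.MC (ChainTo cls chainTo_iff R R_mono ChainTo.trans)
open Pool.Agent.H122.SD (lim_right lim_left cls_eq)

theorem main : S_FC2.{u} := by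
  classical
  intro X _ _ G K _ hper hcl
  obtain ⟨δ, hδ, hper⟩ := hper
  have hGc : Continuous (G : X → X) := G.continuous
  have hone : ∃ η : ℝ, 0 < η ∧ ∀ a ∈ K, ∀ c ∈ K, dist a c < η →
      c ∈ cls (G : X → X) univ a := by
    refine ⟨δ, hδ, fun a ha c hc hac => ?_⟩
    obtain ⟨s, hs0, hs1, hs2⟩ : ∃ s : ℝ, 0 < s ∧ dist a c + 2 * s < δ ∧ 2 * s < δ := by
      refine ⟨(δ - dist a c) / 4, by linarith, by linarith, ?_⟩
      have := dist_nonneg (x := a) (y := c)
      linarith
    -- a periodic point near a point of `K`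
    have key : ∀ a ∈ K, ∃ p : X, p ∈ K ∧ (∃ k : ℕ, 1 ≤ k ∧ G^[k] p = p) ∧ dist a p < s ∧
        ChainTo (G : X → X) univ p a ∧ ChainTo (G : X → X) univ a p := by
      intro a ha
      obtain ⟨p, ⟨hpK, hp⟩, hap⟩ := Metric.mem_closure_iff.1 (hcl ha) s hs0
      have h1 : ∀ ε : ℝ, 0 < ε → ∃ p' : X, dist p' a < ε ∧ p' ∈ cls (G : X → X) univ p := by
        intro ε hε
        obtain ⟨p', ⟨hpK', hp'⟩, hap'⟩ := Metric.mem_closure_iff.1 (hcl ha) (min s ε)
          (lt_min hs0 hε)
        refine ⟨p', by rw [dist_comm]; exact hap'.trans_le (min_le_right _ _), ?_⟩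
        refine hper p hpK p' hpK' hp hp' ?_
        have h2 := dist_triangle p a p'
        have h3 := hap'.trans_le (min_le_left s ε)
        rw [dist_comm] at hap
        linarith
      refine ⟨p, hpK, hp, hap, ?_, ?_⟩
      · refine lim_right fun ε hε => ?_
        obtain ⟨p', h2, h3⟩ := h1 ε hε
        exact ⟨p', h2, h3.1⟩
      · refine lim_left hGc fun ε hε => ?_
        obtain ⟨p', h2, h3⟩ := h1 ε hε
        exact ⟨p', h2, h3.2⟩
    obtain ⟨p, hpK, hp, hp1, hp2, hp3⟩ := key a ha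
    obtain ⟨q, hqK, hq, hq1, hq2, hq3⟩ := key c hc
    have hpq : q ∈ cls (G : X → X) univ p := by
      refine hper p hpK q hqK hp hq ?_
      have h1 := dist_triangle4 p a c q
      rw [dist_comm] at hp1
      linarith
    exact ⟨hp3.trans (hpq.1.trans hq2), hq3.trans (hpq.2.trans hp2)⟩
  refine ⟨hone, ?_⟩
  obtain ⟨η, hη, h1⟩ := hone
  obtain ⟨t, -, htf, htc⟩ := finite_cover_balls_of_compact (isCompact_univ (X := X)) (half_pos hη)
  refine (htf.image (fun x => if h : ∃ a ∈ K, dist a x < η / 2 then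
    cls (G : X → X) univ h.choose else ∅)).subset ?_
  rintro C ⟨a, haC, rfl⟩
  obtain ⟨x, hx, hax⟩ := mem_iUnion₂.1 (htc (mem_univ a))
  have hax' : dist a x < η / 2 := hax
  have hex : ∃ a ∈ K, dist a x < η / 2 := ⟨a, haC, hax'⟩
  refine ⟨x, hx, ?_⟩
  show (if h : ∃ a ∈ K, dist a x < η / 2 then
    cls (G : X → X) univ h.choose else ∅) = _
  rw [dif_pos hex]
  obtain ⟨h2, h3⟩ := hex.choose_spec
  refine (cls_eq (h1 a haC _ h2 ?_)).symm
  have h4 := dist_triangle a x hex.choose
  rw [dist_comm] at h3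
  linarith

end Pool.Agent.H130.VE
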